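import Pool.Agent.helper5.IH.Spec

/-!
# Row ih:BHP
-/

set_option autoImplicit false

namespace Pool.Agent.IH
open Finset CT SYM

theorem BHP (hBXY : BXY_stmt) (hSG1 : SG1_stmt) (hSG2 : SG2_stmt) (hSWP : SWP_stmt) : BHP_stmt := by
  intro V _ _ H v x y hxy hxv hyv
  rw [hBXY V H v x y hxy, ← hSWP V H v x y hxy hxv hyv, ← hSG2 V H v x y]
  have h : (∑ t : V → Fin 3, if t v = 0 then (1 + (mu H t : ZMod 2)) * (pc H x y t : ZMod 2) else 0) =
      (∑ t : V → Fin 3, if t v = 0 then (pc H x y t : ZMod 2) else 0) +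
      ∑ t : V → Fin 3, if t v = 0 then (mu H t : ZMod 2) * (pc H x y t : ZMod 2) else 0 := by
    rw [← Finset.sum_add_distrib]
    apply Finset.sum_congr rfl
    intro t _
    split_ifs
    · ring
    · ring
  rw [h, hSG1 V H v x y hxy hxv hyv, zero_add]

end Pool.Agent.IH
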